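import Mathlib
import Pool.Agent.L7h93.GP.Pair
import Pool.Agent.L7h60.GP.Ser
import Pool.Agent.L7h20.GP.Lift
import Pool.Agent.L7h20.GP.Base
import Pool.Agent.L7h20.GP.Sym
import Pool.Agent.L7h20.GP.Cm
import Pool.Agent.L7h20.GP.Gen

/-!
# The Gorenstein pairing on `I / J` factors over the multiplication (full answer to Q1)

`P` is a regular local `K`-algebra of dimension `n` with regular system of parameters `x_1, …, x_n`, `J = (f_1, …, f_n)`,
`dim P / J = 1`, `I` the saturation of `J` (so `I / J = H^0_𝔪(P / J)`), and `I` is radical. We prove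

(i) the duality pairing `B_φ` on `M = I / J` factors over the multiplication map: there is a `K`-linear form `β` on `I² / I J` with
`B_φ([a], [b]) = β([a b])` for all `a, b ∈ I`;

(ii) if the residue field of `P` is `K` and `I ≠ J`, then the socle of the `P`-module `I² / I J` has dimension one over `K`.

## The pairing

A trace `H^n_𝔪(ω_P) → K` together with `φ : P ≅ ω_P` is a `K`-linear form `l` on `H^n_𝔪(P) = lim P / (x_1^N, …, x_n^N)`; the
theorem holds for all `K`-linear forms `l`. The isomorphism `Ext^n(M, P) ≅ M` comes from the self-duality of the Koszul complex `K(f)`: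
`Ext^n(M, P) = Ext^n(P / J, P) → Ext^n(K(f), P) = P / J` is injective with image `M`. For `a ∈ I` let
`α : P / (x_1^N, …, x_n^N) → P / J` be the multiplication by `a` (`N` large) and `θ : K(x_1^N, …, x_n^N) → K(f_1, …, f_n)` a chain map
which lifts it, `c` its component in the top degree `n` (where both complexes are `P`). For `b ∈ M = Ext^n(M, P)` the element
`α^*(b)` of `Ext^n(P / (x_1^N, …, x_n^N), P) = P / (x_1^N, …, x_n^N)` is the class of `b c`, so

`B_φ([a], [b]) = l (b c / (x_1 ⋯ x_n)^N)`.

This formula is the definition of the pairing in this file (`IsValue`); that lifts exist for all `a ∈ I` and that all lifts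
give the same value for `b ∈ I` is part of the theorem. The Koszul complex `K(q_1, …, q_n)` is the exterior algebra of `P^n` (`Ex`) with the
antiderivation `d e_i = q_i` (`IsKoszul`) as differential; `ChainMap q f θ a c` says that `θ` is a chain map of degree `0` from
`K(q)` to `K(f)` which is multiplication by `a` in degree `0` and by `c` in degree `n`.

## Proof

Choose generators `g_1, …, g_n` of `J` and `s ∈ 𝔪` in general position: `J' = (g_1, …, g_(n-1))` is a complete intersection which agrees
with `I` at the minimal primes of `I` (these localisations of `P` are regular local rings, Serre), `(J', s)` is `𝔪`-primary, `s I ⊆ J`. For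
`u ∈ I²` write `s u = g_n i + j`, `i ∈ I`, `j ∈ J'`, and `Φ(u) = i` in `R = P / (J', s)`. Since `I ∩ (J' : g_n) = J'` this is well
defined on `I² / I J`, and since `I² ∩ J' = I J'` it is injective: `I² / I J` embeds into the Gorenstein ring `R`. If
`s a = g_n t + j`, then `B_φ([a], [b]) = τ(b t) = τ(Φ(a b))` with a `K`-linear form `τ` on `R`. Finally `I² ≠ I J` if `I ≠ J`: otherwise
`t I ⊆ s I + J'` for these `t`, and by the self-injectivity of `R` and Nakayama's lemma all linear maps `I / J' → P / J'` are
multiplications, which gives `a ∈ J`.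

Serre's theorem on localisations of regular local rings is proved in `Pool.Agent.L7h60.GP`, the facts on systems of parameters
of regular local rings, on Koszul complexes and on general position in `Pool.Agent.L7h20.GP`.
-/

set_option autoImplicit false

namespace Pool.Agent.Results.MP_1ce8ed_ag.GorensteinPairing

open IsLocalRing
open Pool.Agent.L7h93.GP (sat LocForm M2 cls main)
open Pool.Agent.L7h93.GP.Pair (IsValue isValue_iff)

/-- **Both assertions of Q1 are true.** -/
theorem result (K P : Type) [Field K] [CommRing P] [IsRegularLocalRing P] [Algebra K P]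
    -- `n = dim P` and a regular system of parameters
    (n : ℕ) (hn : ringKrullDim P = n) (x : Fin n → P) (hx : Ideal.span (Set.range x) = maximalIdeal P)
    -- `J = (f_1, …, f_n)`, `dim P / J = 1`, `I` is the saturation of `J` and radical
    (f : Fin n → P) (J : Ideal P) (hJ : J = Ideal.span (Set.range f)) (hdim : ringKrullDim (P ⧸ J) = 1)
    (I : Ideal P) (hsat : I = sat J) (hI : I.IsRadical) :
    -- (i)
    (∀ l : LocForm K x, ∃ β : M2 I J →ₗ[K] K, ∀ a b : P, a ∈ I → b ∈ I → ∀ hab : a * b ∈ I ^ 2,
      IsValue l f a b (β (cls I J (a * b) hab))) ∧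
    -- (ii)
    (Function.Bijective (algebraMap K (ResidueField P)) → I ≠ J →
      Module.finrank K (Submodule.torsionBySet P (M2 I J) (maximalIdeal P : Set P)) = 1) := by
  obtain ⟨h1, h2⟩ := main Pool.Agent.L7h20.GP.s_CM Pool.Agent.L7h20.GP.s_SOC Pool.Agent.L7h20.GP.s_GEN
    Pool.Agent.L7h20.GP.s_LIFT Pool.Agent.L7h20.GP.s_BASE Pool.Agent.L7h20.GP.s_SYM K P n hn x hx f J hJ hdim I hsat hI
  refine ⟨fun l => ?_, h2⟩
  obtain ⟨β, hβ⟩ := h1 l
  exact ⟨β, fun a b ha hb hab => (isValue_iff l f a b _).2 (hβ a b ha hb hab)⟩

end Pool.Agent.Results.MP_1ce8ed_ag.GorensteinPairing
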